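import Pool.Agent.W84.FP.Defs

set_option autoImplicit false

namespace Pool.Agent.W135.FP

open Pool.Agent.H376R2.MR Pool.Agent.W78.GA Pool.Agent.W84.FP

lemma sq8 (a b : ℤ) (h : (a ^ 2 + b ^ 2) % 8 = 1) :
    ((4 : ℤ) ∣ b ∧ a % 2 = 1) ∨ ((4 : ℤ) ∣ a ∧ b % 2 = 1) := by
  have ha : a % 8 = 0 ∨ a % 8 = 1 ∨ a % 8 = 2 ∨ a % 8 = 3 ∨ a % 8 = 4 ∨ a % 8 = 5 ∨
    a % 8 = 6 ∨ a % 8 = 7 := by omega
  have hb : b % 8 = 0 ∨ b % 8 = 1 ∨ b % 8 = 2 ∨ b % 8 = 3 ∨ b % 8 = 4 ∨ b % 8 = 5 ∨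
    b % 8 = 6 ∨ b % 8 = 7 := by omega
  rcases ha with h1 | h1 | h1 | h1 | h1 | h1 | h1 | h1 <;>
  rcases hb with h2 | h2 | h2 | h2 | h2 | h2 | h2 | h2 <;>
  first
  | (left; constructor <;> omega)
  | (right; constructor <;> omega)
  | (exfalso; simp [pow_two, Int.add_emod, Int.mul_emod, h1, h2] at h)

/-- step 1: the prime -/
lemma exists_pi (q : ℕ) (hq : 1 ≤ q) : ∃ (p : ℕ) (x y : ℤ), p.Prime ∧ p % 4 = 1 ∧
    (16 * q : ℤ) ∣ (p : ℤ) - 1 ∧ (p : ℤ) = x ^ 2 + y ^ 2 ∧ (4 : ℤ) ∣ y ∧ (4 : ℤ) ∣ x - 1 := by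
  obtain ⟨p, hp, -, hpm⟩ := Nat.exists_prime_gt_modEq_one (k := 16 * q) 2 (by omega)
  have hdvd : ((16 * q : ℕ) : ℤ) ∣ (p : ℤ) - 1 := by
    have := (Nat.modEq_iff_dvd.1 hpm.symm)
    simpa using this
  push_cast at hdvd
  have h16 : (16 : ℤ) ∣ (p : ℤ) - 1 := Dvd.dvd.trans ⟨q, rfl⟩ hdvd
  have hp8 : (p : ℤ) % 8 = 1 := by omega
  have hp4 : p % 4 = 1 := by omega
  haveI := Fact.mk hp
  obtain ⟨a, b, hab⟩ := Nat.Prime.sq_add_sq (p := p) (by omega)
  have hab' : (p : ℤ) = (a : ℤ) ^ 2 + (b : ℤ) ^ 2 := by rw [← hab]; push_cast; ring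
  have key : ∃ x y : ℤ, (p : ℤ) = x ^ 2 + y ^ 2 ∧ (4 : ℤ) ∣ y ∧ x % 2 = 1 := by
    rcases sq8 a b (by rw [← hab']; exact hp8) with ⟨h1, h2⟩ | ⟨h1, h2⟩
    · exact ⟨a, b, hab', h1, h2⟩
    · exact ⟨b, a, by rw [hab']; ring, h1, h2⟩
  obtain ⟨x, y, h1, h2, h3⟩ := key
  have h4 : (4 : ℤ) ∣ x - 1 ∨ (4 : ℤ) ∣ -x - 1 := by omega
  rcases h4 with h4 | h4
  · exact ⟨p, x, y, hp, hp4, hdvd, h1, h2, h4⟩
  · exact ⟨p, -x, y, hp, hp4, hdvd, by rw [h1]; ring, h2, h4⟩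

lemma dvd_prod_iff (F : Finset ℕ) (hF : ∀ m ∈ F, m.Prime) (l : ℕ) (hl : l.Prime) :
    (l : ℤ) ∣ ∏ m ∈ F, (m : ℤ) ↔ l ∈ F := by
  rw [Prime.dvd_finset_prod_iff (Nat.prime_iff_prime_int.1 hl)]
  constructor
  · rintro ⟨m, hm, hlm⟩
    have : l = m := (Nat.prime_dvd_prime_iff_eq hl (hF m hm)).1 (Int.natCast_dvd_natCast.1 hlm)
    rwa [this]
  · intro h
    exact ⟨l, h, dvd_rfl⟩

/-- step 2: the multiplier `s + i t` -/
lemma exists_st (q : ℕ) (hq : 1 ≤ q) (x : ℤ) : ∃ s t : ℤ, s % 2 = 1 ∧ (4 : ℤ) ∣ t ∧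
    ∀ l : ℕ, l.Prime → l ∣ q → l ≠ 2 →
      ((l : ℤ) ∣ 1 + x → (l : ℤ) ∣ s ∧ ¬ (l : ℤ) ∣ t) ∧
      (¬ (l : ℤ) ∣ 1 + x → (l : ℤ) ∣ t ∧ ¬ (l : ℤ) ∣ s) := by
  classical
  set F : Finset ℕ := q.primeFactors.filter (fun l : ℕ => l ≠ 2 ∧ (l : ℤ) ∣ 1 + x) with hF
  set G : Finset ℕ := q.primeFactors.filter (fun l : ℕ => l ≠ 2 ∧ ¬ (l : ℤ) ∣ 1 + x) with hG
  have hFp : ∀ m ∈ F, m.Prime := fun m hm =>
    Nat.prime_of_mem_primeFactors (Finset.mem_filter.1 hm).1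
  have hGp : ∀ m ∈ G, m.Prime := fun m hm =>
    Nat.prime_of_mem_primeFactors (Finset.mem_filter.1 hm).1
  refine ⟨∏ m ∈ F, (m : ℤ), 4 * ∏ m ∈ G, (m : ℤ), ?_, ⟨_, rfl⟩, fun l hl hlq hl2 => ?_⟩
  · have h2 : ¬ ((2 : ℕ) : ℤ) ∣ ∏ m ∈ F, (m : ℤ) := by
      rw [dvd_prod_iff F hFp 2 Nat.prime_two]
      intro h
      exact (Finset.mem_filter.1 h).2.1 rfl
    push_cast at h2
    omega
  · have hmem : l ∈ q.primeFactors := Nat.mem_primeFactors.2 ⟨hl, hlq, by omega⟩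
    have hl4 : ¬ (l : ℤ) ∣ 4 := by
      intro h
      have h' : l ∣ 4 := by exact_mod_cast h
      have : l ∣ 2 ^ 2 := by simpa using h'
      exact hl2 ((Nat.prime_dvd_prime_iff_eq hl Nat.prime_two).1 (hl.dvd_of_dvd_pow this))
    have hlp := Nat.prime_iff_prime_int.1 hl
    constructor
    · intro h
      refine ⟨(dvd_prod_iff F hFp l hl).2 (Finset.mem_filter.2 ⟨hmem, hl2, h⟩), fun h' => ?_⟩
      rcases hlp.dvd_or_dvd h' with h'' | h''
      · exact hl4 h''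
      · exact (Finset.mem_filter.1 ((dvd_prod_iff G hGp l hl).1 h'')).2.2 h
    · intro h
      refine ⟨Dvd.dvd.mul_left
        ((dvd_prod_iff G hGp l hl).2 (Finset.mem_filter.2 ⟨hmem, hl2, h⟩)) 4, fun h' => ?_⟩
      exact h (Finset.mem_filter.1 ((dvd_prod_iff F hFp l hl).1 h')).2.2

lemma lam_val {p n : ℕ} (hp : p.Prime) (hn : n ≠ 0) : lam (p * n ^ 2) = -1 := by
  unfold lam
  rw [ArithmeticFunction.cardFactors_mul hp.ne_zero (pow_ne_zero 2 hn),
    ArithmeticFunction.cardFactors_apply_prime hp, ArithmeticFunction.cardFactors_pow,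
    pow_add, pow_mul]
  norm_num

theorem uex : S_UEX := by
  intro q hq h4
  obtain ⟨p, x, y, hp, hp4, ⟨m, hm⟩, hpxy, ⟨y', hy'⟩, ⟨x', hx'⟩⟩ := exists_pi q hq
  obtain ⟨s, t, hs, ⟨t', ht'⟩, hst⟩ := exists_st q hq x
  obtain ⟨A, hA⟩ : ∃ A : ℤ, A = s * (1 + 2 * x') - 8 * (t' * y') := ⟨_, rfl⟩
  obtain ⟨B, hB⟩ : ∃ B : ℤ, B = 2 * (-4 * t' * x' - s * y') := ⟨_, rfl⟩
  have hxx : x = 1 + 4 * x' := by linarith
  have hA2 : 2 * A = s * (1 + x) - t * y := by rw [hA, hxx, ht', hy']; ring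
  have hB2 : 2 * B = t * (1 - x) - s * y := by rw [hB, hxx, ht', hy']; ring
  have hAodd : A % 2 = 1 := by
    have : (s * (1 + 2 * x')) % 2 = 1 := by
      rw [Int.mul_emod, hs, Int.add_emod]
      simp
    omega
  have hBev : B % 2 = 0 := by omega
  -- the key relations
  have r1 : x * A - y * B = A + 8 * q * (s * m) := by
    have : 2 * (x * A - y * B) = 2 * (A + 8 * q * (s * m)) := by
      have e : x * (2 * A) - y * (2 * B) = 2 * A + s * ((p : ℤ) - 1) := by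
        rw [hA2, hB2, hpxy]; ring
      rw [hm] at e
      linear_combination e
    linarith
  have r2 : x * B + y * A = -B - 8 * q * (t * m) := by
    have : 2 * (x * B + y * A) = 2 * (-B - 8 * q * (t * m)) := by
      have e : x * (2 * B) + y * (2 * A) = -(2 * B) - t * ((p : ℤ) - 1) := by
        rw [hA2, hB2, hpxy]; ring
      rw [hm] at e
      linear_combination e
    linarith
  -- coprimality of the norm with `q`
  have hnorm : 4 * (A ^ 2 + B ^ 2) = 2 * s ^ 2 * (1 + x) + 2 * t ^ 2 * (1 - x) - 4 * s * t * y +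
      (s ^ 2 + t ^ 2) * ((p : ℤ) - 1) := by
    have : 4 * (A ^ 2 + B ^ 2) = (2 * A) ^ 2 + (2 * B) ^ 2 := by ring
    rw [this, hA2, hB2, hpxy]
    ring
  have hcop : ∀ l : ℕ, l.Prime → l ∣ q → ¬ (l : ℤ) ∣ A ^ 2 + B ^ 2 := by
    intro l hl hlq hdiv
    have hlp := Nat.prime_iff_prime_int.1 hl
    by_cases h2 : l = 2
    · subst h2
      have e : (A ^ 2 + B ^ 2) % 2 = 1 := by
        rw [pow_two, pow_two, Int.add_emod, Int.mul_emod, hAodd, Int.mul_emod B B, hBev]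
        norm_num
      push_cast at hdiv
      omega
    · have hl4 : ¬ (l : ℤ) ∣ 4 := by
        intro h
        have h' : l ∣ 4 := by exact_mod_cast h
        have : l ∣ 2 ^ 2 := by simpa using h'
        exact h2 ((Nat.prime_dvd_prime_iff_eq hl Nat.prime_two).1 (hl.dvd_of_dvd_pow this))
      have hl2 : ¬ (l : ℤ) ∣ 2 := fun h => hl4 (h.trans ⟨2, by norm_num⟩)
      have hlm : (l : ℤ) ∣ (p : ℤ) - 1 := by
        rw [hm]
        exact Dvd.dvd.mul_right (Dvd.dvd.mul_left (Int.natCast_dvd_natCast.2 hlq) 16) m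
      obtain ⟨k1, hk1⟩ := hdiv
      obtain ⟨k2, hk2⟩ := hlm
      obtain ⟨c1, c2⟩ := hst l hl hlq h2
      by_cases hx1 : (l : ℤ) ∣ 1 + x
      · obtain ⟨⟨s', hs'⟩, h6⟩ := c1 hx1
        obtain ⟨x2, hx2⟩ := hx1
        have : (l : ℤ) ∣ 4 * t ^ 2 := by
          refine ⟨4 * k1 - 2 * s' * s * (1 + x) + 2 * t ^ 2 * x2 + 4 * s' * t * y -
            (s ^ 2 + t ^ 2) * k2, ?_⟩
          rw [hk1, hk2] at hnorm
          have e1 : 1 - x = 2 - l * x2 := by linarith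
          rw [e1] at hnorm
          have e2 : s ^ 2 = l * s' * s := by rw [pow_two]; nth_rewrite 1 [hs']; ring
          have e3 : 4 * s * t * y = 4 * (l * s') * t * y := by rw [← hs']
          rw [e3] at hnorm
          linear_combination (-1 : ℤ) * hnorm - 2 * (1 + x) * e2
        rcases hlp.dvd_or_dvd this with h | h
        · exact hl4 h
        · exact h6 (hlp.dvd_of_dvd_pow h)
      · obtain ⟨⟨t2, ht2⟩, h6⟩ := c2 hx1
        have : (l : ℤ) ∣ 2 * (s ^ 2 * (1 + x)) := by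
          refine ⟨4 * k1 - 2 * t2 * t * (1 - x) + 4 * s * t2 * y - (s ^ 2 + t ^ 2) * k2, ?_⟩
          rw [hk1, hk2] at hnorm
          have e2 : t ^ 2 = l * t2 * t := by rw [pow_two]; nth_rewrite 1 [ht2]; ring
          have e3 : 4 * s * t * y = 4 * s * (l * t2) * y := by rw [← ht2]
          rw [e3] at hnorm
          linear_combination (-1 : ℤ) * hnorm - 2 * (1 - x) * e2
        rcases hlp.dvd_or_dvd this with h | h
        · exact hl2 h
        · rcases hlp.dvd_or_dvd h with h | h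
          · exact h6 (hlp.dvd_of_dvd_pow h)
          · exact hx1 h
  have hcop' : IsCoprime (A ^ 2 + B ^ 2) (q : ℤ) := by
    rw [Int.isCoprime_iff_gcd_eq_one]
    by_contra hne
    obtain ⟨l, hl, hld⟩ := Nat.exists_prime_and_dvd hne
    have h1 : (l : ℤ) ∣ A ^ 2 + B ^ 2 :=
      (Int.natCast_dvd_natCast.2 hld).trans (Int.gcd_dvd_left _ _)
    have h2 : (l : ℤ) ∣ (q : ℤ) :=
      (Int.natCast_dvd_natCast.2 hld).trans (Int.gcd_dvd_right _ _)
    exact hcop l hl (Int.natCast_dvd_natCast.1 h2) h1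
  -- divide by the content
  have hgpos : 0 < Int.gcd A B := by
    rw [Nat.pos_iff_ne_zero]
    intro h
    rw [Int.gcd_eq_zero_iff] at h
    rw [h.1] at hAodd
    omega
  obtain ⟨g, A', B', hg, hAB, hA', hB'⟩ := Int.exists_gcd_one' hgpos
  have hgz : (g : ℤ) ≠ 0 := by exact_mod_cast hg.ne'
  have hsq : A ^ 2 + B ^ 2 = (A' ^ 2 + B' ^ 2) * (g : ℤ) ^ 2 := by rw [hA', hB']; ring
  have hcopN : IsCoprime (A' ^ 2 + B' ^ 2) (q : ℤ) :=
    IsCoprime.of_isCoprime_of_dvd_left hcop' ⟨(g : ℤ) ^ 2, hsq⟩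
  have hcopg : IsCoprime (g : ℤ) (q : ℤ) :=
    IsCoprime.of_isCoprime_of_dvd_left hcop' ⟨(A' ^ 2 + B' ^ 2) * g, by rw [hsq]; ring⟩
  have h4z : (4 : ℤ) ∣ (q : ℤ) := by exact_mod_cast h4
  have h2z : (2 : ℤ) ∣ (q : ℤ) := Dvd.dvd.trans ⟨2, by norm_num⟩ h4z
  have hcopg2 : IsCoprime (g : ℤ) 2 := IsCoprime.of_isCoprime_of_dvd_right hcopg h2z
  have hcopg8 : IsCoprime (g : ℤ) (8 * q : ℤ) := by
    have e : (8 : ℤ) = 2 ^ 3 := by norm_num
    rw [e]
    exact (IsCoprime.pow_right hcopg2).mul_right hcopg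
  obtain ⟨m1, hm1⟩ : (g : ℤ) ∣ s * m := by
    refine hcopg8.dvd_of_dvd_mul_left ⟨x * A' - y * B' - A', ?_⟩
    have := r1
    rw [hA', hB'] at this
    linear_combination (-1 : ℤ) * this
  obtain ⟨m2, hm2⟩ : (g : ℤ) ∣ t * m := by
    refine hcopg8.dvd_of_dvd_mul_left ⟨-(x * B' + y * A') - B', ?_⟩
    have := r2
    rw [hA', hB'] at this
    linear_combination this
  have q1 : x * A' - y * B' = A' + 8 * q * m1 := by
    apply mul_right_cancel₀ hgz
    have := r1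
    rw [hA', hB', hm1] at this
    linear_combination this
  have q2 : x * B' + y * A' = -B' - 8 * q * m2 := by
    apply mul_right_cancel₀ hgz
    have := r2
    rw [hA', hB', hm2] at this
    linear_combination this
  have hA'odd : A' % 2 = 1 := by
    rw [hA', Int.mul_emod] at hAodd
    rcases Int.emod_two_eq_zero_or_one A' with h | h
    · rw [h] at hAodd; simp at hAodd
    · exact h
  have hgodd : (g : ℤ) % 2 = 1 := by
    rw [hA', Int.mul_emod] at hAodd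
    rcases Int.emod_two_eq_zero_or_one (g : ℤ) with h | h
    · rw [h] at hAodd; simp at hAodd
    · exact h
  have hB'ev : B' % 2 = 0 := by
    rw [hB', Int.mul_emod, hgodd] at hBev
    rcases Int.emod_two_eq_zero_or_one B' with h | h
    · exact h
    · rw [h] at hBev; simp at hBev
  obtain ⟨a2, ha2⟩ : ∃ a2 : ℤ, A' = 2 * a2 + 1 := ⟨A' / 2, by omega⟩
  obtain ⟨b2, hb2⟩ : ∃ b2 : ℤ, B' = 2 * b2 := ⟨B' / 2, by omega⟩
  set N : ℤ := A' ^ 2 + B' ^ 2 with hN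
  have hN4 : N = 4 * (a2 ^ 2 + a2 + b2 ^ 2) + 1 := by rw [hN, ha2, hb2]; ring
  have hNpos : 0 < N := by
    have h1 : 0 < A' ^ 2 := by
      have : A' ≠ 0 := by omega
      positivity
    have h2 : 0 ≤ B' ^ 2 := sq_nonneg _
    linarith
  -- the element
  refine ⟨⟨(x * A' - y * B') * A' - (x * B' + y * A') * B',
    (x * A' - y * B') * B' + (x * B' + y * A') * A'⟩, ⟨?_, ?_, ?_⟩, ?_⟩
  · show (q : ℤ) ∣ (x * A' - y * B') * B' + (x * B' + y * A') * A'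
    rw [q1, q2]
    exact ⟨8 * (m1 * B' - m2 * A'), by ring⟩
  · show IsCoprime ((x * A' - y * B') * A' - (x * B' + y * A') * B') (q : ℤ)
    have e : (x * A' - y * B') * A' - (x * B' + y * A') * B' =
        N + q * (8 * (m1 * A' + m2 * B')) := by
      rw [q1, q2, hN]; ring
    rw [e]
    exact (IsCoprime.add_mul_left_left_iff).2 hcopN
  · show (4 : ℤ) ∣ (x * A' - y * B') * A' - (x * B' + y * A') * B' - 1
    have e : (x * A' - y * B') * A' - (x * B' + y * A') * B' - 1 =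
        4 * (a2 ^ 2 + a2 + b2 ^ 2 + q * (2 * (m1 * A' + m2 * B'))) := by
      have : (x * A' - y * B') * A' - (x * B' + y * A') * B' =
          N + q * (8 * (m1 * A' + m2 * B')) := by
        rw [q1, q2, hN]; ring
      rw [this, hN4]
      ring
    rw [e]
    exact ⟨_, rfl⟩
  · have hnm : nm (⟨(x * A' - y * B') * A' - (x * B' + y * A') * B',
        (x * A' - y * B') * B' + (x * B' + y * A') * A'⟩ : Gi) = p * N.natAbs ^ 2 := by
      unfold nm
      have e : ((x * A' - y * B') * A' - (x * B' + y * A') * B') ^ 2 +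
          0 * ((x * A' - y * B') * A' - (x * B' + y * A') * B') *
            ((x * A' - y * B') * B' + (x * B' + y * A') * A') +
          1 * ((x * A' - y * B') * B' + (x * B' + y * A') * A') ^ 2 = (p : ℤ) * N ^ 2 := by
        rw [hpxy, hN]; ring
      show (((x * A' - y * B') * A' - (x * B' + y * A') * B') ^ 2 +
          0 * ((x * A' - y * B') * A' - (x * B' + y * A') * B') *
            ((x * A' - y * B') * B' + (x * B' + y * A') * A') +
          1 * ((x * A' - y * B') * B' + (x * B' + y * A') * A') ^ 2).natAbs = _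
      rw [e, Int.natAbs_mul, Int.natAbs_pow, Int.natAbs_natCast]
    rw [hnm]
    have hN0 : N.natAbs ≠ 0 := by omega
    refine ⟨lam_val hp hN0, fun l hl hld => ?_⟩
    rcases (Nat.Prime.dvd_mul hl).1 hld with h | h
    · rw [(Nat.prime_dvd_prime_iff_eq hl hp).1 h]
      exact hp4
    · have h1 : l ∣ N.natAbs := hl.dvd_of_dvd_pow h
      have hsqr : IsSquare (-1 : ZMod N.natAbs) :=
        ZMod.isSquare_neg_one_of_eq_sq_add_sq_of_isCoprime hN
          (Int.isCoprime_iff_gcd_eq_one.2 hAB)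
      have h3 : l % 4 ≠ 3 := Nat.mod_four_ne_three_of_mem_primeFactors_of_isSquare_neg_one
        (Nat.mem_primeFactors.2 ⟨hl, h1, hN0⟩) hsqr
      have h5 : l ≠ 2 := by
        rintro rfl
        have : (2 : ℤ) ∣ N := by
          have := Int.natCast_dvd.2 h1
          exact_mod_cast this
        omega
      have h6 := hl.eq_two_or_odd
      omega

end Pool.Agent.W135.FP
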